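import Mathlib
import Pool.Agent.H568R2.Collapse
import Pool.Agent.H592R3.MapIn

/-!
Feeding conjunctions of input bits into a circuit.
-/

namespace Pool.Agent.H72.Gap

open Finset DomAC0 H568R2 H592R3

section AndComp
variable {J J' : Type} (C : Circuit J') (r : ℕ) (γ : J' → Fin r) (A : Fin r → Finset J)

/-- The new name of a node. -/
def nd : J' ⊕ Fin C.size → J ⊕ Fin (r + C.size)
  | Sum.inl j => Sum.inr (Fin.castAdd C.size (γ j))
  | Sum.inr h => Sum.inr (Fin.natAdd r h)

open Classical in
/-- The wires. -/
noncomputable def acPreds (g : Fin (r + C.size)) : Finset (J ⊕ Fin (r + C.size)) :=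
  if h : g.val < r then (A ⟨g.val, h⟩).image Sum.inl
    else (C.preds ⟨g.val - r, by omega⟩).image (nd C r γ)

open Classical in
lemma mem_acPreds_lt (g : Fin (r + C.size)) (h : g.val < r) (v : J ⊕ Fin (r + C.size)) :
    v ∈ acPreds C r γ A g ↔ ∃ j ∈ A ⟨g.val, h⟩, Sum.inl j = v := by
  unfold acPreds
  rw [dif_pos h, Finset.mem_image]

open Classical in
lemma mem_acPreds_ge (g : Fin C.size) (v : J ⊕ Fin (r + C.size)) :
    v ∈ acPreds C r γ A (Fin.natAdd r g) ↔ ∃ u ∈ C.preds g, nd C r γ u = v := by
  have h : ¬ (Fin.natAdd r g).val < r := by simp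
  have e : (⟨(Fin.natAdd r g).val - r, by have := (Fin.natAdd r g).2; omega⟩ : Fin C.size) = g := by
    apply Fin.ext; simp
  unfold acPreds
  rw [dif_neg h, Finset.mem_image, e]

/-- The circuit `C` reading the conjunctions of the input bits in `A (γ j)`. -/
noncomputable def andComp : Circuit J where
  size := r + C.size
  kind := fun g => if h : g.val < r then GateKind.and else C.kind ⟨g.val - r, by omega⟩
  preds := acPreds C r γ A
  acyclic := by
    intro g h hh
    by_cases hg : g.val < r
    · obtain ⟨j, _, hj⟩ := (mem_acPreds_lt C r γ A g hg _).1 hh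
      cases hj
    · obtain ⟨g', rfl⟩ : ∃ g' : Fin C.size, Fin.natAdd r g' = g :=
        ⟨⟨g.val - r, by omega⟩, by apply Fin.ext; simp; omega⟩
      obtain ⟨u, hu, he⟩ := (mem_acPreds_ge C r γ A g' _).1 hh
      cases u with
      | inl j =>
        unfold nd at he
        rw [Sum.inr.injEq] at he
        subst he
        have := (γ j).2
        show (γ j).val < r + g'.val
        omega
      | inr h' =>
        unfold nd at he
        rw [Sum.inr.injEq] at he
        subst he
        have h1 := C.acyclic g' h' hu
        show r + h'.val < r + g'.val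
        have : h'.val < g'.val := h1
        omega
  unary := by
    classical
    intro g hg
    by_cases h : g.val < r
    · rw [dif_pos h] at hg
      cases hg
    · rw [dif_neg h] at hg
      obtain ⟨v, hv⟩ := Finset.card_eq_one.1 (C.unary _ hg)
      unfold acPreds
      rw [dif_neg h, hv, Finset.image_singleton, Finset.card_singleton]
  output := nd C r γ C.output

lemma andComp_lt (x : J → Bool) (g : Fin (r + C.size)) (hg : g.val < r) :
    (andComp C r γ A).gateVal x g = true ↔ ∀ j ∈ A ⟨g.val, hg⟩, x j = true := by
  rw [gateVal_eq (andComp C r γ A) x g]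
  unfold gfun
  have hk : (andComp C r γ A).kind g = GateKind.and := by
    show (if h : g.val < r then GateKind.and else _) = _
    rw [dif_pos hg]
  rw [hk]
  simp only [Finset.mem_toList, decide_eq_true_eq]
  constructor
  · intro h j hj
    exact h (Sum.inl j) ((mem_acPreds_lt C r γ A g hg _).2 ⟨j, hj, rfl⟩)
  · intro h v hv
    obtain ⟨j, hj, rfl⟩ := (mem_acPreds_lt C r γ A g hg v).1 hv
    exact h j hj

open Classical in
/-- The input bits of `C`. -/
noncomputable def inp (x : J → Bool) : J' → Bool :=
  fun j => decide (∀ i ∈ A (γ j), x i = true)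

omit C in
lemma inp_iff (x : J → Bool) (j : J') :
    inp r γ A x j = true ↔ ∀ i ∈ A (γ j), x i = true := by
  unfold inp
  rw [decide_eq_true_eq]

lemma andComp_inl (x : J → Bool) (j : J') :
    (andComp C r γ A).nodeVal x (nd C r γ (Sum.inl j)) = inp r γ A x j := by
  show (andComp C r γ A).gateVal x (Fin.castAdd C.size (γ j)) = _
  rw [Bool.eq_iff_iff, andComp_lt C r γ A x _ (γ j).2]
  unfold inp
  rw [decide_eq_true_eq]
  rfl

lemma andComp_gateVal (x : J → Bool) : ∀ (k : ℕ) (g : Fin C.size), g.val = k →
    (andComp C r γ A).gateVal x (Fin.natAdd r g) = C.gateVal (inp r γ A x) g := by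
  classical
  intro k
  induction k using Nat.strong_induction_on with
  | _ k ih =>
    intro g hg
    rw [gateVal_eq (andComp C r γ A) x (Fin.natAdd r g), gateVal_eq C (inp r γ A x) g]
    have hnode : ∀ v ∈ C.preds g, (andComp C r γ A).nodeVal x (nd C r γ v) =
        C.nodeVal (inp r γ A x) v := by
      intro v hv
      cases v with
      | inl j => exact andComp_inl C r γ A x j
      | inr h =>
        have hlt := C.acyclic g h hv
        exact ih h.val (by rw [← hg]; exact hlt) h rfl
    have hmem : ∀ v, v ∈ (andComp C r γ A).preds (Fin.natAdd r g) ↔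
        ∃ u ∈ C.preds g, nd C r γ u = v := mem_acPreds_ge C r γ A g
    have hk : (andComp C r γ A).kind (Fin.natAdd r g) = C.kind g := by
      have h : ¬ (Fin.natAdd r g).val < r := by simp
      show (if h : (Fin.natAdd r g).val < r then GateKind.and else _) = _
      rw [dif_neg h]
      congr 1
      apply Fin.ext
      simp
    unfold gfun
    rw [hk]
    cases C.kind g with
    | and =>
      simp only [Finset.mem_toList]
      rw [decide_eq_decide]
      constructor
      · intro h v hv
        exact (hnode v hv).symm.trans (h _ ((hmem _).2 ⟨v, hv, rfl⟩))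
      · intro h v hv
        obtain ⟨w, hw, rfl⟩ := (hmem v).1 hv
        exact (hnode w hw).trans (h w hw)
    | or =>
      simp only [Finset.mem_toList]
      rw [decide_eq_decide]
      constructor
      · rintro ⟨v, hv, h⟩
        obtain ⟨w, hw, rfl⟩ := (hmem v).1 hv
        exact ⟨w, hw, (hnode w hw).symm.trans h⟩
      · rintro ⟨v, hv, h⟩
        exact ⟨_, (hmem _).2 ⟨v, hv, rfl⟩, (hnode v hv).trans h⟩
    | not =>
      simp only [Finset.mem_toList]
      rw [decide_eq_decide]
      constructor
      · intro h v hv
        exact (hnode v hv).symm.trans (h _ ((hmem _).2 ⟨v, hv, rfl⟩))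
      · intro h v hv
        obtain ⟨w, hw, rfl⟩ := (hmem v).1 hv
        exact (hnode w hw).trans (h w hw)

lemma andComp_eval (x : J → Bool) : (andComp C r γ A).eval x = C.eval (inp r γ A x) := by
  unfold Circuit.eval
  show (andComp C r γ A).nodeVal x (nd C r γ C.output) = _
  cases C.output with
  | inl j => exact andComp_inl C r γ A x j
  | inr g => exact andComp_gateVal C r γ A x g.val g rfl

lemma andComp_depth_inl (j : J') :
    (andComp C r γ A).nodeDepth (nd C r γ (Sum.inl j)) ≤ 1 := by
  show (andComp C r γ A).gateDepth (Fin.castAdd C.size (γ j)) ≤ 1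
  apply gateDepth_le (andComp C r γ A) _ (le_refl 1)
  intro v hv
  obtain ⟨i, _, rfl⟩ := (mem_acPreds_lt C r γ A _ (γ j).2 v).1 hv
  exact Nat.zero_lt_one

lemma andComp_gateDepth : ∀ (k : ℕ) (g : Fin C.size), g.val = k →
    (andComp C r γ A).gateDepth (Fin.natAdd r g) ≤ C.gateDepth g + 1 := by
  classical
  intro k
  induction k using Nat.strong_induction_on with
  | _ k ih =>
    intro g hg
    apply gateDepth_le (andComp C r γ A) _ (by omega)
    intro v hv
    obtain ⟨u, hu, rfl⟩ := (mem_acPreds_ge C r γ A g v).1 hv
    have hd := depth_lt C g u hu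
    have h1 : (andComp C r γ A).nodeDepth (nd C r γ u) ≤ C.nodeDepth u + 1 := by
      cases u with
      | inl j => exact andComp_depth_inl C r γ A j
      | inr h =>
        have hlt := C.acyclic g h hu
        exact ih h.val (by rw [← hg]; exact hlt) h rfl
    omega

lemma andComp_depth : (andComp C r γ A).depth ≤ C.depth + 1 := by
  unfold Circuit.depth
  show (andComp C r γ A).nodeDepth (nd C r γ C.output) ≤ _
  cases C.output with
  | inl j => exact andComp_depth_inl C r γ A j
  | inr g => exact andComp_gateDepth C r γ A g.val g rfl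

end AndComp

end Pool.Agent.H72.Gap
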