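import Mathlib
import Pool.Agent.H592R6.GapDefs
import Pool.Agent.H592R6.Gap
import Pool.Agent.H592R7.Enc

/-!
The encoding of constraint satisfaction problems with large domains by constraints on Boolean
variables that are given by truth tables.
-/

set_option linter.unusedSectionVars false

namespace Pool.Agent.H72.Gap

open Finset DomAC0 H568R2 SmallDepth H592R3.MbU

section Enc
variable {m B ℓ n w : ℕ} (s : Fin m → Fin B → Fin m) (e : (Fin m × Fin ℓ) ↪ Fin n)
  (dec : (Fin ℓ → Bool) ≃ Fin (2 ^ ℓ)) (pos : (Fin B × Fin ℓ) ↪ Fin w) (v0 : Fin n)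

/-- The scopes. -/
noncomputable def scopes (c : Fin m) : Fin w → Fin n :=
  Function.extend pos (fun p => e (s c p.1, p.2)) (fun _ => v0)

/-- The truth tables. -/
def table (X : (Fin m × (Fin B → Fin (2 ^ ℓ))) → Bool) : Fin m × (Fin w → Bool) → Bool :=
  fun ct => X (ct.1, fun k => dec (fun i => ct.2 (pos (k, i))))

lemma table_junta (j : Fin m × (Fin w → Bool)) :
    Junta 1 (fun X => table (B := B) dec pos X j) := by
  refine ⟨{(j.1, fun k => dec (fun i => j.2 (pos (k, i))))}, by simp, ?_⟩
  intro X Y h
  exact h _ (Finset.mem_singleton_self _)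

lemma table_scopes (X : (Fin m × (Fin B → Fin (2 ^ ℓ))) → Bool) (α : Fin n → Bool) (c : Fin m) :
    table dec pos X (c, fun j => α (scopes s e pos v0 c j)) =
      X (vr s (fun v => dec (fun i => α (e (v, i)))) c) := by
  unfold table vr scopes
  simp only [pos.injective.extend_apply]

lemma table_sat (X : (Fin m × (Fin B → Fin (2 ^ ℓ))) → Bool) (hX : Sat s X) :
    Satisfiable (scopes s e pos v0) (table dec pos X) := by
  obtain ⟨a, ha⟩ := hX
  refine ⟨Function.extend e (fun p => dec.symm (a p.1) p.2) (fun _ => false), ?_⟩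
  unfold satisfied
  rw [Finset.filter_eq_self]
  intro c _
  rw [table_scopes]
  have h2 : (fun v => dec (fun i => Function.extend e
      (fun p : Fin m × Fin ℓ => dec.symm (a p.1) p.2) (fun _ => false) (e (v, i)))) = a := by
    funext v
    have h3 : (fun i => Function.extend e
      (fun p : Fin m × Fin ℓ => dec.symm (a p.1) p.2) (fun _ => false) (e (v, i))) =
        dec.symm (a v) := by
      funext i
      rw [e.injective.extend_apply]
    rw [h3, Equiv.apply_symm_apply]
  rw [h2]
  exact ha c

lemma table_gap (X : (Fin m × (Fin B → Fin (2 ^ ℓ))) → Bool) (L : ℕ) (hL : 4 * (L - 1) ≤ 3 * m)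
    (h : ¬ ThreeQuarters (scopes s e pos v0) (table dec pos X)) :
    ∃ a : Fin m → Fin (2 ^ ℓ), L ≤ (univ.filter (fun c => X (vr s a c) = true)).card := by
  unfold ThreeQuarters at h
  push Not at h
  obtain ⟨α, hα⟩ := h
  refine ⟨fun v => dec (fun i => α (e (v, i))), ?_⟩
  have h1 : satisfied (scopes s e pos v0) (table dec pos X) α =
      univ.filter (fun c => X (vr s (fun v => dec (fun i => α (e (v, i)))) c) = true) := by
    unfold satisfied
    refine Finset.filter_congr fun c _ => ?_
    rw [table_scopes]
  rw [h1] at hα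
  omega

end Enc

end Pool.Agent.H72.Gap
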