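import Mathlib
import Pool.Agent.H592R7.AvgSat
import Pool.Agent.H72.Gap.Enc

/-!
Constraint satisfaction problems with a gap are hard on average for circuits of small depth.
-/

set_option linter.unusedSectionVars false

namespace Pool.Agent.H72.Gap

open Finset DomAC0 H568R2 SmallDepth H592R3 H592R3.Mb2 H592R3.Mb3 H592R3.MbU

open Classical in
/-- The gap version of the average-case bound. -/
theorem gap_avg (ε : ℝ) (hε : 0 < ε) (hε1 : ε < 1) : ∃ C : ℝ, 0 < C ∧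
    ∀ n d w : ℕ, 2 ≤ n → 1 ≤ d → C * (d * Real.log n) ≤ w → w ≤ n →
    ∃ M : ℕ, 0 < M ∧ M ≤ n ∧ ∃ sc : Fin M → Fin w → Fin n,
    ∃ ν₀ ν₁ : ((Fin M × (Fin w → Bool)) → Bool) → ℝ,
      ((∀ x, 0 ≤ ν₀ x) ∧ ∑ x, ν₀ x = 1) ∧ ((∀ x, 0 ≤ ν₁ x) ∧ ∑ x, ν₁ x = 1) ∧
      (∀ x, ν₁ x ≠ 0 → Satisfiable sc x) ∧
      (∑ x, ν₀ x * (if ThreeQuarters sc x then 0 else 1)) ≤ (2 : ℝ) ^ (-((1 - ε) * n / 10)) ∧
      ∀ K : Circuit (Fin M × (Fin w → Bool)), K.depth ≤ d → (K.size : ℝ) ≤ 2 ^ ((1 - ε) * n) →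
        |(∑ x, ν₀ x * (if K.eval x = true then 1 else 0)) -
          ∑ x, ν₁ x * (if K.eval x = true then 1 else 0)| ≤ (2 : ℝ) ^ (-((w : ℝ) / C)) := by
  obtain ⟨Q, hQ6, _, C', hC', hpar⟩ := params5 ε hε
  obtain ⟨C, hC⟩ : ∃ C : ℝ, C = C' + 16 * (2 * Q ^ 2 + 14 + 1) := ⟨_, rfl⟩
  have hC0 : 0 < C := by rw [hC]; positivity
  refine ⟨C, hC0, ?_⟩
  intro n d w hn hd hw hwn
  have hnR : (2 : ℝ) ≤ n := by exact_mod_cast hn
  have hlogn : 0 ≤ Real.log n := Real.log_nonneg (by linarith)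
  obtain ⟨b, m', k, hb, hm', hA, hB1, hB2, hgk, hBw, hQn, hexp, hwb⟩ := hpar n d 0 w hn hd (by
    rw [Nat.cast_zero, add_zero]
    refine le_trans ?_ hw
    apply mul_le_mul_of_nonneg_right _ (by positivity)
    rw [hC]
    have : (0 : ℝ) ≤ 16 * (2 * Q ^ 2 + 14 + 1) := by positivity
    linarith) hwn
  obtain ⟨s, hs, hsexp, hssm⟩ := scopes2 Q m' hQ6 (by omega)
  have hn0 : 0 < n := by omega
  have hQm : 1 ≤ Q * m' := Nat.one_le_iff_ne_zero.2 (by positivity)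
  have hcard1 : Q * m' * (2 * d * b) ≤ n := by
    refine le_trans ?_ hQn
    exact Nat.mul_le_mul_left _ (by omega)
  obtain ⟨e⟩ : Nonempty ((Fin (Q * m') × Fin (2 * d * b)) ↪ Fin n) := by
    apply Function.Embedding.nonempty_of_card_le
    rw [Fintype.card_prod, Fintype.card_fin, Fintype.card_fin, Fintype.card_fin]
    exact hcard1
  obtain ⟨dec⟩ : Nonempty ((Fin (2 * d * b) → Bool) ≃ Fin (2 ^ (2 * d * b))) :=
    ⟨Fintype.equivFinOfCardEq (by simp)⟩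
  obtain ⟨pos⟩ : Nonempty ((Fin (2 * Q ^ 2 + 14 + 1) × Fin (2 * d * b)) ↪ Fin w) := by
    apply Function.Embedding.nonempty_of_card_le
    rw [Fintype.card_prod, Fintype.card_fin, Fintype.card_fin, Fintype.card_fin]
    omega
  obtain ⟨σ, hσdef⟩ : ∃ σ : ((Fin (Q * m') × (Fin (2 * Q ^ 2 + 14 + 1) →
      Fin (2 ^ (2 * d * b)))) → Bool) → (Fin (Q * m') × (Fin w → Bool) → Bool),
      σ = table dec pos := ⟨_, rfl⟩
  have hσ : ∀ j, Junta 1 (fun X => σ X j) := by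
    intro j; rw [hσdef]; exact table_junta dec pos j
  obtain ⟨p, hp⟩ : ∃ p : ℝ, p = (1 / ((2 : ℝ) ^ (d * b)) ^ 3) / 2 := ⟨_, rfl⟩
  have hp0 : 0 ≤ p := by rw [hp]; positivity
  have hp1 : p ≤ 1 := by
    have h1 : (1 : ℝ) ≤ ((2 : ℝ) ^ (d * b)) ^ 3 := one_le_pow₀ (one_le_pow₀ (by norm_num))
    have h2 : 1 / ((2 : ℝ) ^ (d * b)) ^ 3 ≤ 1 := by
      rw [div_le_one (by positivity)]; exact h1
    rw [hp]
    linarith
  have hμ : ∀ X : (Fin (Q * m') × (Fin (2 * Q ^ 2 + 14 + 1) → Fin (2 ^ (2 * d * b)))) → Bool,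
      0 ≤ ∏ i, vp p (X i) := fun X => Finset.prod_nonneg fun i _ => vp_nonneg hp0 hp1 _
  have hμ1 : ∑ X : (Fin (Q * m') × (Fin (2 * Q ^ 2 + 14 + 1) → Fin (2 ^ (2 * d * b)))) → Bool,
      ∏ i, vp p (X i) = 1 := by
    have := Ex_const (I := Fin (Q * m') × (Fin (2 * Q ^ 2 + 14 + 1) → Fin (2 ^ (2 * d * b))))
      (vp_sum p) (1 : ℝ)
    unfold Ex at this
    simpa using this
  have hNp : (0 : ℝ) < (((2 ^ (2 * d * b) : ℕ) : ℝ)) ^ (Q * m') := by positivity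
  refine ⟨Q * m', hQm, ?_, scopes s e pos ⟨0, hn0⟩, push (fun X => ∏ i, vp p (X i)) σ,
    push (fun Xa : ((Fin (Q * m') × (Fin (2 * Q ^ 2 + 14 + 1) → Fin (2 ^ (2 * d * b)))) → Bool) ×
      (Fin (Q * m') → Fin (2 ^ (2 * d * b))) =>
      (∏ i, vp p (Xa.1 i)) * (1 / (((2 ^ (2 * d * b) : ℕ) : ℝ)) ^ (Q * m')))
      (fun Xa => σ (plant (vr s Xa.2) univ Xa.1)),
    ⟨push_nonneg _ _ hμ, by rw [push_total, hμ1]⟩,
    ⟨push_nonneg _ _ (fun Xa => mul_nonneg (hμ _) (by positivity)), ?_⟩, ?_, ?_, ?_⟩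
  · exact le_trans (Nat.le_mul_of_pos_right _ (by omega)) hQn
  · rw [push_total, Fintype.sum_prod_type]
    dsimp only
    simp_rw [Finset.sum_const, Finset.card_univ, Fintype.card_fun, Fintype.card_fin, nsmul_eq_mul]
    refine Eq.trans ?_ hμ1
    refine Finset.sum_congr rfl fun X _ => ?_
    push_cast
    field_simp
  · intro u hu
    obtain ⟨Xa, rfl⟩ := push_ne _ _ _ hu
    rw [hσdef]
    exact table_sat s e dec pos _ _ (plant_sat s _ _)
  · rw [push_sum _ σ (fun x => if ThreeQuarters (scopes s e pos ⟨0, hn0⟩) x then (0 : ℝ) else 1)]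
    obtain ⟨L, hLdef⟩ : ∃ L : ℕ, L = 3 * (Q * m') / 4 + 1 := ⟨_, rfl⟩
    have h1 := gap_prob (N := 2 ^ (2 * d * b)) s hp0 hp1 L
    have hQe : Q * m' ≤ d * (E1 Q * m' + k) := by
      calc Q * m' ≤ E1 Q * m' := Nat.mul_le_mul_right _ (by unfold E1 E0; omega)
        _ ≤ E1 Q * m' + k := Nat.le_add_right _ _
        _ = 1 * (E1 Q * m' + k) := (one_mul _).symm
        _ ≤ d * (E1 Q * m' + k) := Nat.mul_le_mul_right _ hd
    have hbig : 2 * (24 * (Q * m')) ^ 16 ≤ 2 ^ (d * b) := by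
      calc 2 * (24 * (Q * m')) ^ 16 ≤ 2 * (12 * (2 * (d * (E1 Q * m' + k)))) ^ 16 := by
            apply Nat.mul_le_mul_left
            apply Nat.pow_le_pow_left
            omega
        _ ≤ 2 ^ b := hA
        _ ≤ 2 ^ (d * b) := Nat.pow_le_pow_right (by norm_num)
            (Nat.le_mul_of_pos_left b (by omega))
    have h2 := gap_arith Q d b m' n L ε hε1 hbig hQm (by omega) hexp
    rw [← hp] at h2
    refine le_trans ?_ (h1.trans h2)
    unfold Ex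
    refine Finset.sum_le_sum fun X _ => ?_
    beta_reduce
    by_cases hX : ThreeQuarters (scopes s e pos ⟨0, hn0⟩) (σ X)
    · rw [if_pos hX, mul_zero]
      apply mul_nonneg (hμ X)
      split_ifs <;> norm_num
    · rw [if_neg hX, if_pos]
      rw [hσdef] at hX
      exact table_gap s e dec pos ⟨0, hn0⟩ X L (by omega) hX
  · intro K hK1 hK2
    rw [push_sum _ σ (fun u => if K.eval u = true then (1 : ℝ) else 0),
      push_sum _ _ (fun u => if K.eval u = true then (1 : ℝ) else 0)]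
    have hcon : K.size ≤ 2 ^ ((2 * Q - 12) * (d * b * m')) := by
      have h6 : (2 : ℝ) ^ ((1 - ε) * n) ≤
          2 ^ ((((2 * Q - 12) * (d * b * m') : ℕ)) : ℝ) :=
        Real.rpow_le_rpow_of_exponent_le (by norm_num) hexp
      rw [Real.rpow_natCast] at h6
      exact_mod_cast hK2.trans h6
    have h1 := adv_le (Y := Bool) (N := 2 ^ (2 * d * b)) Nat.one_le_two_pow s p hp0 hp1 σ K
    have h2 := csp_first Q d m' b k (d * (E1 Q * m' + k)) hQ6 hd hm' rfl hA hB1 hB2 s hs hsexp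
      hssm K hK1 (le_refl _) σ hσ hcon
    rw [← hp] at h2
    refine h1.trans ?_
    obtain ⟨E, hE⟩ : ∃ E : ℝ, E = Ex (vp p) (fun X => Mb2.cntS s σ K X) := ⟨_, rfl⟩
    rw [← hE] at h2 ⊢
    have h3 : (1 / (((2 ^ (2 * d * b) : ℕ) : ℝ)) ^ (Q * m')) * E ≤ 3 / 2 ^ (d * b) := by
      calc (1 / (((2 ^ (2 * d * b) : ℕ) : ℝ)) ^ (Q * m')) * E
          ≤ (1 / (((2 ^ (2 * d * b) : ℕ) : ℝ)) ^ (Q * m')) *
            (3 * (((2 : ℝ) ^ (2 * d * b)) ^ (Q * m') / 2 ^ (d * b))) :=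
            mul_le_mul_of_nonneg_left h2 (by positivity)
        _ = 3 / 2 ^ (d * b) := by
            push_cast
            field_simp
    refine h3.trans ?_
    have h4 : (4 : ℝ) ≤ 2 ^ ((d * b : ℕ) / 2 : ℝ) := by
      have h5 : (2 : ℝ) ≤ (d * b : ℕ) / 2 := by
        rw [le_div_iff₀ (by norm_num)]
        have : 4 ≤ d * b := by omega
        have h6 : ((4 : ℕ) : ℝ) ≤ ((d * b : ℕ) : ℝ) := by exact_mod_cast this
        push_cast at h6 ⊢
        linarith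
      calc (4 : ℝ) = 2 ^ (2 : ℝ) := by norm_num
        _ ≤ 2 ^ ((d * b : ℕ) / 2 : ℝ) := Real.rpow_le_rpow_of_exponent_le (by norm_num) h5
    have h5 : (2 : ℝ) ^ (d * b) = 2 ^ ((d * b : ℕ) / 2 : ℝ) * 2 ^ ((d * b : ℕ) / 2 : ℝ) := by
      rw [← Real.rpow_add (by norm_num), add_halves, Real.rpow_natCast]
    have h6 : (2 : ℝ) ^ (-((w : ℝ) / C)) = 1 / 2 ^ ((w : ℝ) / C) := by
      rw [Real.rpow_neg (by norm_num), one_div]
    have h7 : (2 : ℝ) ^ ((w : ℝ) / C) ≤ 2 ^ ((d * b : ℕ) / 2 : ℝ) := by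
      apply Real.rpow_le_rpow_of_exponent_le (by norm_num)
      rw [div_le_div_iff₀ hC0 (by norm_num)]
      have h8 : (w : ℝ) ≤ 8 * (2 * Q ^ 2 + 14 + 1) * (d * b) := by exact_mod_cast hwb
      have h9 : 16 * (2 * (Q : ℝ) ^ 2 + 14 + 1) * (d * b) ≤ C * (d * b) := by
        apply mul_le_mul_of_nonneg_right _ (by positivity)
        rw [hC]; linarith
      push_cast
      linarith
    rw [h6, h5, div_le_div_iff₀ (by positivity) (by positivity)]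
    have h8 : (0 : ℝ) < 2 ^ ((d * b : ℕ) / 2 : ℝ) := by positivity
    have h9 : (0 : ℝ) < 2 ^ ((w : ℝ) / C) := by positivity
    nlinarith

end Pool.Agent.H72.Gap
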