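import Mathlib
import Pool.Agent.H72.Gap.Avg
import Pool.Agent.H72.Gap.AndComp

/-!
Amplification of the gap: conjunctions of `t` constraints.
-/

set_option linter.unusedSectionVars false

namespace Pool.Agent.H72.Gap

open Finset DomAC0 SmallDepth H592R3.MbU

/-- Every assignment satisfies at most the fraction `δ` of the constraints. -/
def AtMost {n M w : ℕ} (δ : ℝ) (sc : Fin M → Fin w → Fin n)
    (x : Fin M × (Fin w → Bool) → Bool) : Prop :=
  ∀ α, ((satisfied sc x α).card : ℝ) ≤ δ * M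

section Amp
variable {m n w₀ w t : ℕ} (sc : Fin m → Fin w₀ → Fin n) (pos : (Fin t × Fin w₀) ↪ Fin w)
  (v0 : Fin n)

/-- The scopes of the conjunctions. -/
noncomputable def ampSc (c : Fin (m ^ t)) : Fin w → Fin n :=
  Function.extend pos (fun p => sc (finFunctionFinEquiv.symm c p.1) p.2) (fun _ => v0)

/-- The conjunctions. -/
def amp (x : Fin m × (Fin w₀ → Bool) → Bool) : Fin (m ^ t) × (Fin w → Bool) → Bool :=
  fun cτ => decide (∀ i : Fin t, x (finFunctionFinEquiv.symm cτ.1 i,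
    fun j => cτ.2 (pos (i, j))) = true)

omit sc v0 in
lemma amp_iff (x : Fin m × (Fin w₀ → Bool) → Bool) (cτ : Fin (m ^ t) × (Fin w → Bool)) :
    amp pos x cτ = true ↔ ∀ i : Fin t, x (finFunctionFinEquiv.symm cτ.1 i,
      fun j => cτ.2 (pos (i, j))) = true := by
  unfold amp
  rw [decide_eq_true_eq]

lemma amp_eval (x : Fin m × (Fin w₀ → Bool) → Bool) (α : Fin n → Bool) (c : Fin (m ^ t)) :
    amp pos x (c, fun j => α (ampSc sc pos v0 c j)) = true ↔
      ∀ i : Fin t, finFunctionFinEquiv.symm c i ∈ satisfied sc x α := by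
  unfold amp ampSc satisfied
  simp only [decide_eq_true_eq, pos.injective.extend_apply, Finset.mem_filter, Finset.mem_univ,
    true_and]

lemma amp_sat (x : Fin m × (Fin w₀ → Bool) → Bool) (h : Satisfiable sc x) :
    Satisfiable (ampSc sc pos v0) (amp pos x) := by
  obtain ⟨α, hα⟩ := h
  refine ⟨α, ?_⟩
  rw [Finset.eq_univ_iff_forall]
  intro c
  unfold satisfied
  rw [Finset.mem_filter]
  refine ⟨Finset.mem_univ _, ?_⟩
  rw [amp_eval]
  intro i
  rw [hα]
  exact Finset.mem_univ _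

lemma amp_card (x : Fin m × (Fin w₀ → Bool) → Bool) (α : Fin n → Bool) :
    (satisfied (ampSc sc pos v0) (amp pos x) α).card = (satisfied sc x α).card ^ t := by
  classical
  have h1 : satisfied (ampSc sc pos v0) (amp pos x) α =
      (Fintype.piFinset (fun _ : Fin t => satisfied sc x α)).image finFunctionFinEquiv := by
    ext c
    unfold satisfied
    rw [Finset.mem_filter, Finset.mem_image]
    constructor
    · rintro ⟨_, h⟩
      rw [amp_eval] at h
      refine ⟨finFunctionFinEquiv.symm c, ?_, Equiv.apply_symm_apply _ _⟩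
      rw [Fintype.mem_piFinset]
      exact h
    · rintro ⟨f, hf, rfl⟩
      refine ⟨Finset.mem_univ _, ?_⟩
      rw [amp_eval]
      intro i
      rw [Equiv.symm_apply_apply]
      exact Fintype.mem_piFinset.1 hf i
  rw [h1, Finset.card_image_of_injective _ finFunctionFinEquiv.injective,
    Fintype.card_piFinset, Finset.prod_const, Finset.card_univ, Fintype.card_fin]

lemma amp_gap (δ : ℝ) (hδ : (3 / 4 : ℝ) ^ t ≤ δ) (x : Fin m × (Fin w₀ → Bool) → Bool)
    (h : ThreeQuarters sc x) : AtMost δ (ampSc sc pos v0) (amp pos x) := by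
  intro α
  rw [amp_card]
  have h1 : ((satisfied sc x α).card : ℝ) ≤ 3 / 4 * m := by
    have h2 : ((4 * (satisfied sc x α).card : ℕ) : ℝ) ≤ ((3 * m : ℕ) : ℝ) := by
      exact_mod_cast h α
    push_cast at h2
    linarith
  push_cast
  calc ((satisfied sc x α).card : ℝ) ^ t ≤ (3 / 4 * m) ^ t :=
        pow_le_pow_left₀ (Nat.cast_nonneg _) h1 _
    _ = (3 / 4) ^ t * (m : ℝ) ^ t := by rw [mul_pow]
    _ ≤ δ * (m : ℝ) ^ t := mul_le_mul_of_nonneg_right hδ (by positivity)

/-- Circuits for the conjunctions give circuits for the constraints. -/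
lemma amp_circuit (K : Circuit (Fin (m ^ t) × (Fin w → Bool))) :
    ∃ K' : Circuit (Fin m × (Fin w₀ → Bool)), K'.depth ≤ K.depth + 1 ∧
      K'.size = m ^ t * 2 ^ (t * w₀) + K.size ∧ ∀ x, K'.eval x = K.eval (amp pos x) := by
  classical
  obtain ⟨eG⟩ : Nonempty (((Fin t → Fin m) × (Fin t × Fin w₀ → Bool)) ≃
      Fin (m ^ t * 2 ^ (t * w₀))) := by
    apply Nonempty.intro
    apply Fintype.equivFinOfCardEq
    simp
  obtain ⟨γ, hγ⟩ : ∃ γ : Fin (m ^ t) × (Fin w → Bool) → Fin (m ^ t * 2 ^ (t * w₀)),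
      γ = fun cτ => eG (finFunctionFinEquiv.symm cτ.1, fun p => cτ.2 (pos p)) := ⟨_, rfl⟩
  obtain ⟨A, hA⟩ : ∃ A : Fin (m ^ t * 2 ^ (t * w₀)) → Finset (Fin m × (Fin w₀ → Bool)),
      A = fun g => univ.image (fun i : Fin t => ((eG.symm g).1 i, fun j => (eG.symm g).2 (i, j))) :=
    ⟨_, rfl⟩
  refine ⟨andComp K _ γ A, andComp_depth K _ γ A, rfl, fun x => ?_⟩
  rw [andComp_eval]
  congr 1
  funext cτ
  rw [Bool.eq_iff_iff, inp_iff, amp_iff, hA, hγ]
  simp only [Equiv.symm_apply_apply, Finset.mem_image, Finset.mem_univ, true_and]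
  constructor
  · intro h i
    exact h _ ⟨i, rfl⟩
  · rintro h p ⟨i, rfl⟩
    exact h i

end Amp

end Pool.Agent.H72.Gap
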