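import Mathlib
import Pool.Agent.H568R2.Collapse
import Pool.Agent.H592R6.GapDefs

/-!
The circuit that tries all assignments.
-/

namespace Pool.Agent.H72.Gap

open Finset DomAC0 H568R2 SmallDepth

section Brute
variable {n M w : ℕ}

open Classical in
/-- The wires of the exhaustive search. -/
noncomputable def brPreds (sc : Fin M → Fin w → Fin n) (as : Fin (2 ^ n) → Fin n → Bool)
    (g : Fin (2 ^ n + 1)) : Finset ((Fin M × (Fin w → Bool)) ⊕ Fin (2 ^ n + 1)) :=
  if h : g.val < 2 ^ n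
    then univ.image (fun c : Fin M => Sum.inl (c, fun j => as ⟨g.val, h⟩ (sc c j)))
    else (univ.filter (fun g' : Fin (2 ^ n + 1) => g'.val < 2 ^ n)).image Sum.inr

lemma br_lt (sc : Fin M → Fin w → Fin n) (as : Fin (2 ^ n) → Fin n → Bool)
    (g : Fin (2 ^ n + 1)) (hg : g.val < 2 ^ n)
    (v : (Fin M × (Fin w → Bool)) ⊕ Fin (2 ^ n + 1)) :
    v ∈ brPreds sc as g ↔ ∃ c : Fin M, Sum.inl (c, fun j => as ⟨g.val, hg⟩ (sc c j)) = v := by
  unfold brPreds
  rw [dif_pos hg, Finset.mem_image]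
  simp

lemma br_ge (sc : Fin M → Fin w → Fin n) (as : Fin (2 ^ n) → Fin n → Bool)
    (g : Fin (2 ^ n + 1)) (hg : ¬ g.val < 2 ^ n)
    (v : (Fin M × (Fin w → Bool)) ⊕ Fin (2 ^ n + 1)) :
    v ∈ brPreds sc as g ↔ ∃ g' : Fin (2 ^ n + 1), g'.val < 2 ^ n ∧ Sum.inr g' = v := by
  unfold brPreds
  rw [dif_neg hg, Finset.mem_image]
  simp

/-- An OR of ANDs: one AND for each assignment. -/
noncomputable def brute (sc : Fin M → Fin w → Fin n) (as : Fin (2 ^ n) → Fin n → Bool) :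
    Circuit (Fin M × (Fin w → Bool)) where
  size := 2 ^ n + 1
  kind := fun g => if g.val < 2 ^ n then GateKind.and else GateKind.or
  preds := brPreds sc as
  acyclic := by
    intro g h hh
    by_cases hg : g.val < 2 ^ n
    · obtain ⟨u, hu⟩ := (br_lt sc as g hg _).1 hh
      cases hu
    · obtain ⟨g', hg', hu⟩ := (br_ge sc as g hg _).1 hh
      rw [Sum.inr.injEq] at hu
      subst hu
      show g'.val < g.val
      omega
  unary := by
    intro g hg
    split_ifs at hg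
  output := Sum.inr (Fin.last (2 ^ n))

variable (sc : Fin M → Fin w → Fin n) (as : Fin (2 ^ n) → Fin n → Bool)

lemma brute_mem_lt (g : Fin (2 ^ n + 1)) (hg : g.val < 2 ^ n)
    (v : (Fin M × (Fin w → Bool)) ⊕ Fin (2 ^ n + 1)) :
    v ∈ (brute sc as).preds g ↔
      ∃ c : Fin M, Sum.inl (c, fun j => as ⟨g.val, hg⟩ (sc c j)) = v :=
  br_lt sc as g hg v

lemma brute_mem_last (v : (Fin M × (Fin w → Bool)) ⊕ Fin (2 ^ n + 1)) :
    v ∈ (brute sc as).preds (Fin.last (2 ^ n)) ↔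
      ∃ g : Fin (2 ^ n + 1), g.val < 2 ^ n ∧ Sum.inr g = v :=
  br_ge sc as (Fin.last (2 ^ n)) (by simp) v

lemma brute_gate (x : Fin M × (Fin w → Bool) → Bool) (g : Fin (2 ^ n + 1))
    (hg : g.val < 2 ^ n) : (brute sc as).gateVal x g = true ↔
      satisfied sc x (as ⟨g.val, hg⟩) = univ := by
  rw [gateVal_eq (brute sc as) x g]
  unfold gfun
  have hk : (brute sc as).kind g = GateKind.and := by
    show (if g.val < 2 ^ n then GateKind.and else GateKind.or) = _
    rw [if_pos hg]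
  rw [hk]
  simp only [Finset.mem_toList, decide_eq_true_eq]
  unfold satisfied
  rw [Finset.filter_eq_self]
  constructor
  · intro h c _
    exact h (Sum.inl (c, fun j => as ⟨g.val, hg⟩ (sc c j)))
      ((brute_mem_lt sc as g hg _).2 ⟨c, rfl⟩)
  · intro h v hv
    obtain ⟨c, rfl⟩ := (brute_mem_lt sc as g hg v).1 hv
    exact h c (Finset.mem_univ _)

lemma brute_eval (has : Function.Surjective as) (x : Fin M × (Fin w → Bool) → Bool) :
    (brute sc as).eval x = true ↔ Satisfiable sc x := by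
  show (brute sc as).gateVal x (Fin.last (2 ^ n)) = true ↔ _
  rw [gateVal_eq (brute sc as) x (Fin.last (2 ^ n))]
  unfold gfun
  have hk : (brute sc as).kind (Fin.last (2 ^ n)) = GateKind.or := by
    show (if (Fin.last (2 ^ n)).val < 2 ^ n then GateKind.and else GateKind.or) = _
    rw [if_neg (by simp)]
  rw [hk]
  simp only [Finset.mem_toList, decide_eq_true_eq]
  constructor
  · rintro ⟨v, hv, h⟩
    obtain ⟨g, hg, rfl⟩ := (brute_mem_last sc as v).1 hv
    exact ⟨_, (brute_gate sc as x g hg).1 h⟩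
  · rintro ⟨α, hα⟩
    obtain ⟨i, rfl⟩ := has α
    have hi : i.val < 2 ^ n + 1 := by omega
    refine ⟨Sum.inr (⟨i.val, hi⟩ : Fin (2 ^ n + 1)),
      (brute_mem_last sc as _).2 ⟨⟨i.val, hi⟩, i.2, rfl⟩, ?_⟩
    exact (brute_gate sc as x ⟨i.val, hi⟩ i.2).2 hα

lemma brute_depth : (brute sc as).depth ≤ 2 := by
  have h1 : ∀ g : Fin (2 ^ n + 1), g.val < 2 ^ n → (brute sc as).gateDepth g ≤ 1 := by
    intro g hg
    rw [Circuit.gateDepth]
    apply Nat.succ_le_succ
    apply Finset.sup_le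
    rintro ⟨v, hv⟩ _
    obtain ⟨u, rfl⟩ := (brute_mem_lt sc as g hg v).1 hv
    exact le_refl 0
  show (brute sc as).gateDepth (Fin.last (2 ^ n)) ≤ 2
  rw [Circuit.gateDepth]
  apply Nat.succ_le_succ
  apply Finset.sup_le
  rintro ⟨v, hv⟩ _
  obtain ⟨g, hg, rfl⟩ := (brute_mem_last sc as v).1 hv
  exact h1 g hg

/-- Depth two and `2 ^ n + 1` gates suffice. -/
theorem upper (sc : Fin M → Fin w → Fin n) :
    ∃ K : Circuit (Fin M × (Fin w → Bool)), K.depth ≤ 2 ∧ K.size = 2 ^ n + 1 ∧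
      ∀ x, K.eval x = true ↔ Satisfiable sc x := by
  obtain ⟨eqv⟩ : Nonempty (Fin (2 ^ n) ≃ (Fin n → Bool)) :=
    ⟨(Fintype.equivFinOfCardEq (by simp)).symm⟩
  exact ⟨brute sc eqv, brute_depth sc eqv, rfl, brute_eval sc eqv eqv.surjective⟩

end Brute

end Pool.Agent.H72.Gap
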