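import Mathlib
import Pool.Agent.H72.Gap.Avg

/-!
Randomised circuits of small depth do not tell satisfiable constraint satisfaction problems from
problems with a gap.
-/

set_option linter.unusedSectionVars false

namespace Pool.Agent.H72.Gap

open Finset DomAC0 SmallDepth

/-- From the average case to randomised circuits. -/
theorem rand_of_avg {M n w : ℕ} (sc : Fin M → Fin w → Fin n)
    (ν₀ ν₁ : ((Fin M × (Fin w → Bool)) → Bool) → ℝ)
    (h0 : ∀ x, 0 ≤ ν₀ x) (h01 : ∑ x, ν₀ x = 1) (h1 : ∀ x, 0 ≤ ν₁ x) (h11 : ∑ x, ν₁ x = 1)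
    (hsat : ∀ x, ν₁ x ≠ 0 → Satisfiable sc x) (δ₀ δ₁ : ℝ)
    (P : ((Fin M × (Fin w → Bool)) → Bool) → Prop)
    (hgap : (∑ x, ν₀ x * (open Classical in if P x then 0 else 1)) ≤ δ₀)
    (d : ℕ) (S : ℝ)
    (hadv : ∀ K : Circuit (Fin M × (Fin w → Bool)), K.depth ≤ d → (K.size : ℝ) ≤ S →
        |(∑ x, ν₀ x * (if K.eval x = true then 1 else 0)) -
          ∑ x, ν₁ x * (if K.eval x = true then 1 else 0)| ≤ δ₁)
    (hδ : δ₀ + δ₁ < 1 / 3)
    (R : RandCircuit (Fin M × (Fin w → Bool))) (N : ℕ) (hR : R.Bounded d N)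
    (hyes : ∀ x, Satisfiable sc x → R.Correct x True)
    (hno : ∀ x, P x → R.Correct x False) : S < N := by
  classical
  by_contra hcon
  push Not at hcon
  let _ := R.fin
  have hsize : ∀ ω, ((R.circ ω).size : ℝ) ≤ S := fun ω =>
    le_trans (by exact_mod_cast (hR ω).2) hcon
  -- acceptance probabilities
  obtain ⟨A, hA⟩ : ∃ A : ((Fin M × (Fin w → Bool)) → Bool) → ℝ,
      A = fun x => ∑ ω, R.prob ω * (if (R.circ ω).eval x = true then 1 else 0) := ⟨_, rfl⟩
  have hA0 : ∀ x, 0 ≤ A x := by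
    intro x; rw [hA]
    refine Finset.sum_nonneg fun ω _ => mul_nonneg (R.nonneg ω) ?_
    split_ifs <;> norm_num
  have hA1 : ∀ x, A x ≤ 1 := by
    intro x; rw [hA]
    refine le_trans (Finset.sum_le_sum fun ω _ => ?_) R.total.le
    have := R.nonneg ω
    split_ifs <;> linarith
  have hAy : ∀ x, Satisfiable sc x → 2 / 3 ≤ A x := by
    intro x hx
    have h := hyes x hx
    unfold RandCircuit.Correct at h
    rw [hA]
    refine h.trans (le_of_eq ?_)
    refine Finset.sum_congr rfl fun ω _ => ?_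
    simp only [decide_true, mul_ite, mul_one, mul_zero]
  have hAn : ∀ x, P x → A x ≤ 1 / 3 := by
    intro x hx
    have h := hno x hx
    unfold RandCircuit.Correct at h
    have h2 : A x + ∑ ω, (if (R.circ ω).eval x = false then R.prob ω else 0) = 1 := by
      rw [hA]
      refine Eq.trans ?_ R.total
      rw [← Finset.sum_add_distrib]
      refine Finset.sum_congr rfl fun ω _ => ?_
      cases (R.circ ω).eval x <;> simp
    have h3 : (2 : ℝ) / 3 ≤ ∑ ω, (if (R.circ ω).eval x = false then R.prob ω else 0) := by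
      refine h.trans (le_of_eq ?_)
      refine Finset.sum_congr rfl fun ω _ => ?_
      simp only [decide_false]
    linarith
  have hdiff : |(∑ x, ν₀ x * A x) - ∑ x, ν₁ x * A x| ≤ δ₁ := by
    have e : ∀ ν : ((Fin M × (Fin w → Bool)) → Bool) → ℝ, ∑ x, ν x * A x =
        ∑ ω, R.prob ω * ∑ x, ν x * (if (R.circ ω).eval x = true then 1 else 0) := by
      intro ν
      rw [hA]
      simp_rw [Finset.mul_sum]
      rw [Finset.sum_comm]
      refine Finset.sum_congr rfl fun ω _ => Finset.sum_congr rfl fun x _ => by ring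
    rw [e, e, ← Finset.sum_sub_distrib]
    refine (Finset.abs_sum_le_sum_abs _ _).trans ?_
    calc ∑ ω, |R.prob ω * (∑ x, ν₀ x * (if (R.circ ω).eval x = true then 1 else 0)) -
          R.prob ω * ∑ x, ν₁ x * (if (R.circ ω).eval x = true then 1 else 0)|
        ≤ ∑ ω, R.prob ω * δ₁ := by
          refine Finset.sum_le_sum fun ω _ => ?_
          rw [← mul_sub, abs_mul, abs_of_nonneg (R.nonneg ω)]
          exact mul_le_mul_of_nonneg_left (hadv _ (hR ω).1 (hsize ω)) (R.nonneg ω)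
      _ = δ₁ := by rw [← Finset.sum_mul, R.total, one_mul]
  have hlow : 2 / 3 ≤ ∑ x, ν₁ x * A x := by
    calc (2 : ℝ) / 3 = ∑ x, ν₁ x * (2 / 3) := by rw [← Finset.sum_mul, h11, one_mul]
      _ ≤ ∑ x, ν₁ x * A x := by
        refine Finset.sum_le_sum fun x _ => ?_
        by_cases hx : ν₁ x = 0
        · rw [hx]; simp
        · exact mul_le_mul_of_nonneg_left (hAy x (hsat x hx)) (h1 x)
  have hup : ∑ x, ν₀ x * A x ≤ 1 / 3 + δ₀ := by
    calc ∑ x, ν₀ x * A x ≤ ∑ x, (ν₀ x * (1 / 3) +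
          ν₀ x * (if P x then 0 else 1)) := by
          refine Finset.sum_le_sum fun x _ => ?_
          rw [← mul_add]
          apply mul_le_mul_of_nonneg_left _ (h0 x)
          split_ifs with hx
          · have := hAn x hx; linarith
          · have := hA1 x; linarith
      _ ≤ 1 / 3 + δ₀ := by
          rw [Finset.sum_add_distrib, ← Finset.sum_mul, h01, one_mul]
          have e : (∑ x, ν₀ x * (if P x then (0 : ℝ) else 1)) ≤ δ₀ := by
            refine le_trans (le_of_eq ?_) hgap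
            refine Finset.sum_congr rfl fun x _ => ?_
            congr 1
          linarith
  have := abs_le.1 hdiff
  linarith [this.1]

/-- The size of the constants. -/
theorem small_pow (ε : ℝ) (hε1 : ε < 1) (C : ℝ) (hC : 0 < C) :
    ∃ C' : ℝ, C ≤ C' ∧ ∀ n d t w : ℕ, 2 ≤ n → 1 ≤ d → 1 ≤ t →
      C' * (t * (d * Real.log n)) ≤ w → w ≤ n →
      (2 : ℝ) ^ (-((1 - ε) * n / 10)) + (2 : ℝ) ^ (-((w : ℝ) / (C * t))) < 1 / 3 := by
  have hlog2 : 0 < Real.log 2 := Real.log_pos (by norm_num)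
  obtain ⟨C', hC'⟩ : ∃ C' : ℝ, C' = C + 3 * C / Real.log 2 + 30 / ((1 - ε) * Real.log 2) :=
    ⟨_, rfl⟩
  have hε0 : 0 < 1 - ε := by linarith
  have p1 : 0 < 3 * C / Real.log 2 := by positivity
  have p2 : 0 < 30 / ((1 - ε) * Real.log 2) := by positivity
  refine ⟨C', by rw [hC']; linarith, ?_⟩
  intro n d t w hn hd ht hw hwn
  have hnR : (2 : ℝ) ≤ n := by exact_mod_cast hn
  have hdR : (1 : ℝ) ≤ d := by exact_mod_cast hd
  have htR : (1 : ℝ) ≤ t := by exact_mod_cast ht
  have ht0 : (0 : ℝ) < t := by linarith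
  have hl2' : Real.log 2 ≤ Real.log n := Real.log_le_log (by norm_num) hnR
  have hdl : Real.log 2 ≤ d * Real.log n := by nlinarith
  have hC'0 : 0 < C' := by rw [hC']; linarith
  have hw2 : C' * (t * Real.log 2) ≤ w :=
    (mul_le_mul_of_nonneg_left (mul_le_mul_of_nonneg_left hdl ht0.le) hC'0.le).trans hw
  have hw1 : C' * Real.log 2 ≤ w := by
    refine le_trans ?_ hw2
    apply mul_le_mul_of_nonneg_left _ hC'0.le
    nlinarith
  have hwnR : (w : ℝ) ≤ n := by exact_mod_cast hwn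
  have h1 : 3 ≤ (w : ℝ) / (C * t) := by
    rw [le_div_iff₀ (by positivity)]
    refine le_trans ?_ hw2
    have e : 3 * C / Real.log 2 * (t * Real.log 2) = 3 * (C * t) := by field_simp
    have : 3 * C / Real.log 2 * (t * Real.log 2) ≤ C' * (t * Real.log 2) := by
      apply mul_le_mul_of_nonneg_right _ (by positivity)
      rw [hC']; linarith
    linarith
  have h2 : 3 ≤ (1 - ε) * n / 10 := by
    rw [le_div_iff₀ (by norm_num)]
    have e : 30 / ((1 - ε) * Real.log 2) * Real.log 2 * (1 - ε) = 30 := by field_simp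
    have h3 : 30 / ((1 - ε) * Real.log 2) * Real.log 2 ≤ n := by
      refine le_trans ?_ (hw1.trans hwnR)
      apply mul_le_mul_of_nonneg_right _ hlog2.le
      rw [hC']; linarith
    have h4 := mul_le_mul_of_nonneg_right h3 hε0.le
    rw [e] at h4
    linarith
  have h3 : (2 : ℝ) ^ (-((1 - ε) * n / 10)) ≤ 1 / 8 := by
    calc (2 : ℝ) ^ (-((1 - ε) * n / 10)) ≤ 2 ^ (-(3 : ℝ)) :=
          Real.rpow_le_rpow_of_exponent_le (by norm_num) (by linarith)
      _ = 1 / 8 := by
          rw [Real.rpow_neg (by norm_num)]; norm_num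
  have h4 : (2 : ℝ) ^ (-((w : ℝ) / (C * t))) ≤ 1 / 8 := by
    calc (2 : ℝ) ^ (-((w : ℝ) / (C * t))) ≤ 2 ^ (-(3 : ℝ)) :=
          Real.rpow_le_rpow_of_exponent_le (by norm_num) (by linarith)
      _ = 1 / 8 := by
          rw [Real.rpow_neg (by norm_num)]; norm_num
  linarith

end Pool.Agent.H72.Gap
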