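import Mathlib
import Pool.Agent.H72.Gap.Rand
import Pool.Agent.H72.Gap.Brute
import Pool.Agent.H72.Gap.Amp

/-!
The gap version for circuits of small depth, with soundness `(3 / 4) ^ t`: assembly.
-/

set_option linter.unusedSectionVars false

namespace Pool.Agent.H72.Gap

open Finset DomAC0 SmallDepth H592R3.MbU

open Classical in
/-- The average-case bound with soundness `(3 / 4) ^ t`. -/
theorem gap_t (ε : ℝ) (hε : 0 < ε) (hε1 : ε < 1) : ∃ C : ℝ, 0 < C ∧
    ∀ n d t w : ℕ, 2 ≤ n → 1 ≤ d → 1 ≤ t → C * (t * (d * Real.log n)) ≤ w → w ≤ n →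
    ∃ M : ℕ, 0 < M ∧ M ≤ n ^ t ∧ ∃ sc : Fin M → Fin w → Fin n,
      ∃ ν₀ ν₁ : ((Fin M × (Fin w → Bool)) → Bool) → ℝ,
        ((∀ x, 0 ≤ ν₀ x) ∧ ∑ x, ν₀ x = 1) ∧ ((∀ x, 0 ≤ ν₁ x) ∧ ∑ x, ν₁ x = 1) ∧
        (∀ x, ν₁ x ≠ 0 → Satisfiable sc x) ∧
        (∑ x, ν₀ x * (if AtMost ((3 / 4) ^ t) sc x then 0 else 1)) ≤
          (2 : ℝ) ^ (-((1 - ε) * n / 10)) ∧
        ∀ K : Circuit (Fin M × (Fin w → Bool)), K.depth ≤ d → (K.size : ℝ) ≤ 2 ^ ((1 - ε) * n) →
          |(∑ x, ν₀ x * (if K.eval x = true then 1 else 0)) -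
            ∑ x, ν₁ x * (if K.eval x = true then 1 else 0)| ≤ (2 : ℝ) ^ (-((w : ℝ) / (C * t))) := by
  obtain ⟨C₀, hC₀, h⟩ := gap_avg (ε / 2) (by linarith) (by linarith)
  have hlog2 : 0 < Real.log 2 := Real.log_pos (by norm_num)
  have hlog21 : Real.log 2 ≤ 1 := by linarith [Real.log_two_lt_d9]
  obtain ⟨a, ha⟩ : ∃ a : ℝ, a = 16 * C₀ / ε := ⟨_, rfl⟩
  obtain ⟨b, hb⟩ : ∃ b : ℝ, b = 8 / (ε * Real.log 2) := ⟨_, rfl⟩
  have ha0 : 0 < a := by rw [ha]; positivity
  have hb0 : 0 < b := by rw [hb]; positivity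
  refine ⟨a + b, by linarith, ?_⟩
  intro n d t w hn hd ht1 hw hwn
  have htR : (1 : ℝ) ≤ t := by exact_mod_cast ht1
  have ht0 : (0 : ℝ) < t := by linarith
  have hnR : (2 : ℝ) ≤ n := by exact_mod_cast hn
  have hdR : (1 : ℝ) ≤ d := by exact_mod_cast hd
  have hwnR : (w : ℝ) ≤ n := by exact_mod_cast hwn
  have hl2' : Real.log 2 ≤ Real.log n := Real.log_le_log (by norm_num) hnR
  have hlogn : 0 < Real.log n := by linarith
  have hdl : Real.log n ≤ d * Real.log n := by nlinarith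
  have hwa : a * (t * (d * Real.log n)) ≤ w := by
    refine le_trans ?_ hw
    apply mul_le_mul_of_nonneg_right _ (by positivity)
    linarith
  have hwb : b * (t * Real.log n) ≤ w := by
    refine le_trans ?_ hw
    calc b * (t * Real.log n) ≤ b * (t * (d * Real.log n)) :=
          mul_le_mul_of_nonneg_left (mul_le_mul_of_nonneg_left hdl ht0.le) hb0.le
      _ ≤ (a + b) * (t * (d * Real.log n)) :=
          mul_le_mul_of_nonneg_right (by linarith) (by positivity)
  -- `w` is large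
  have hw8 : 8 * t / ε ≤ (w : ℝ) := by
    refine le_trans ?_ hwb
    calc 8 * t / ε = b * (t * Real.log 2) := by rw [hb]; field_simp
      _ ≤ b * (t * Real.log n) :=
          mul_le_mul_of_nonneg_left (mul_le_mul_of_nonneg_left hl2' ht0.le) hb0.le
  have hn8 : 8 * t / ε ≤ (n : ℝ) := hw8.trans hwnR
  have hn8' : (8 : ℝ) * t ≤ n * ε := by
    rwa [div_le_iff₀ hε] at hn8
  have hn8'' : (8 : ℝ) ≤ n := by nlinarith
  -- the arity of the small constraints
  obtain ⟨w₀, hw₀⟩ : ∃ w₀ : ℕ, w₀ = ⌊ε * w / (4 * t)⌋₊ := ⟨_, rfl⟩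
  have hw0up : (w₀ : ℝ) ≤ ε * w / (4 * t) := by
    rw [hw₀]; exact Nat.floor_le (by positivity)
  have hw0low : ε * w / (8 * t) ≤ (w₀ : ℝ) := by
    have h1 : ε * w / (4 * t) < w₀ + 1 := by rw [hw₀]; exact Nat.lt_floor_add_one _
    have h2 : 1 ≤ ε * w / (8 * t) := by
      rw [le_div_iff₀ (by positivity)]
      rw [div_le_iff₀ hε] at hw8
      linarith
    have h3 : ε * w / (4 * t) = ε * w / (8 * t) + ε * w / (8 * t) := by
      field_simp
      ring
    linarith
  have htw : (t : ℝ) * w₀ ≤ ε * w / 4 := by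
    calc (t : ℝ) * w₀ ≤ t * (ε * w / (4 * t)) := mul_le_mul_of_nonneg_left hw0up ht0.le
      _ = ε * w / 4 := by field_simp
  have htwn : (t : ℝ) * w₀ ≤ ε * n / 4 := by
    refine htw.trans ?_
    have := mul_le_mul_of_nonneg_left hwnR hε.le
    linarith
  have htww : t * w₀ ≤ w := by
    have h1 : (t : ℝ) * w₀ ≤ w := by
      refine htw.trans ?_
      have : (0 : ℝ) ≤ w := Nat.cast_nonneg w
      nlinarith
    exact_mod_cast h1
  have hw0n : w₀ ≤ n := by
    calc w₀ = 1 * w₀ := (one_mul _).symm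
      _ ≤ t * w₀ := Nat.mul_le_mul_right _ ht1
      _ ≤ w := htww
      _ ≤ n := hwn
  have hbase : C₀ * (((d + 1 : ℕ) : ℝ) * Real.log n) ≤ w₀ := by
    refine le_trans ?_ hw0low
    rw [le_div_iff₀ (by positivity)]
    have h1 : ((d + 1 : ℕ) : ℝ) ≤ 2 * d := by push_cast; linarith
    have h2 : a * (t * (d * Real.log n)) * ε ≤ w * ε := mul_le_mul_of_nonneg_right hwa hε.le
    have h3 : a * (t * (d * Real.log n)) * ε = 16 * t * C₀ * (d * Real.log n) := by
      rw [ha]; field_simp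
    calc C₀ * (((d + 1 : ℕ) : ℝ) * Real.log n) * (8 * t)
        ≤ C₀ * ((2 * d) * Real.log n) * (8 * t) := by gcongr
      _ = 16 * t * C₀ * (d * Real.log n) := by ring
      _ ≤ w * ε := by rw [← h3]; exact h2
      _ = ε * w := mul_comm _ _
  obtain ⟨m, hm0, hmn, sc, ν₀, ν₁, h0, h1, hs, hg, hK⟩ := h n (d + 1) w₀ hn (by omega) hbase hw0n
  obtain ⟨pos⟩ : Nonempty ((Fin t × Fin w₀) ↪ Fin w) := by
    apply Function.Embedding.nonempty_of_card_le
    rw [Fintype.card_prod, Fintype.card_fin, Fintype.card_fin, Fintype.card_fin]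
    exact htww
  have hn0 : 0 < n := by omega
  refine ⟨m ^ t, Nat.pow_pos hm0, Nat.pow_le_pow_left hmn t, ampSc sc pos ⟨0, hn0⟩,
    push ν₀ (amp pos), push ν₁ (amp pos), ⟨push_nonneg _ _ h0.1, by rw [push_total, h0.2]⟩,
    ⟨push_nonneg _ _ h1.1, by rw [push_total, h1.2]⟩, ?_, ?_, ?_⟩
  · intro y hy
    have hex : ∃ x, amp pos x = y ∧ ν₁ x ≠ 0 := by
      unfold push at hy
      obtain ⟨x, _, hx⟩ := Finset.exists_ne_zero_of_sum_ne_zero hy
      by_cases hxy : amp pos x = y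
      · rw [if_pos hxy] at hx
        exact ⟨x, hxy, hx⟩
      · rw [if_neg hxy] at hx
        exact absurd rfl hx
    obtain ⟨x, rfl, hx⟩ := hex
    exact amp_sat sc pos ⟨0, hn0⟩ x (hs x hx)
  · rw [push_sum ν₀ (amp pos)
      (fun x => if AtMost ((3 / 4) ^ t) (ampSc sc pos ⟨0, hn0⟩) x then (0 : ℝ) else 1)]
    calc ∑ x, ν₀ x * (if AtMost ((3 / 4) ^ t) (ampSc sc pos ⟨0, hn0⟩) (amp pos x)
          then (0 : ℝ) else 1)
        ≤ ∑ x, ν₀ x * (if ThreeQuarters sc x then 0 else 1) := by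
          refine Finset.sum_le_sum fun x _ => ?_
          apply mul_le_mul_of_nonneg_left _ (h0.1 x)
          by_cases hx : ThreeQuarters sc x
          · rw [if_pos (amp_gap sc pos ⟨0, hn0⟩ _ (le_refl _) x hx), if_pos hx]
          · rw [if_neg hx]
            split_ifs <;> norm_num
      _ ≤ (2 : ℝ) ^ (-((1 - ε / 2) * n / 10)) := hg
      _ ≤ (2 : ℝ) ^ (-((1 - ε) * n / 10)) := by
          apply Real.rpow_le_rpow_of_exponent_le (by norm_num)
          have : (0 : ℝ) < ε * n := by positivity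
          linarith
  · intro K hK1 hK2
    rw [push_sum _ _ (fun u => if K.eval u = true then (1 : ℝ) else 0),
      push_sum _ _ (fun u => if K.eval u = true then (1 : ℝ) else 0)]
    obtain ⟨K', hd', hs', he'⟩ := amp_circuit (m := m) (w₀ := w₀) pos K
    have hsize : (K'.size : ℝ) ≤ 2 ^ ((1 - ε / 2) * n) := by
      rw [hs']
      push_cast
      have e1 : ((m : ℝ) ^ t) ≤ 2 ^ (ε * n / 8) := by
        have e2 : (m : ℝ) ^ t ≤ (n : ℝ) ^ t :=
          pow_le_pow_left₀ (Nat.cast_nonneg _) (by exact_mod_cast hmn) _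
        refine e2.trans ?_
        have e3 : (n : ℝ) ^ t = 2 ^ (t * Real.log n / Real.log 2) := by
          rw [Real.rpow_def_of_pos (by norm_num : (0 : ℝ) < 2)]
          have : Real.log 2 * (t * Real.log n / Real.log 2) = t * Real.log n := by field_simp
          rw [this, mul_comm, Real.exp_mul, Real.exp_log (by linarith), Real.rpow_natCast]
        rw [e3]
        apply Real.rpow_le_rpow_of_exponent_le (by norm_num)
        rw [div_le_div_iff₀ hlog2 (by norm_num)]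
        have e4 : b * (t * Real.log n) * (ε * Real.log 2) = 8 * t * Real.log n := by
          rw [hb]; field_simp
        have e5 : b * (t * Real.log n) * (ε * Real.log 2) ≤ n * (ε * Real.log 2) :=
          mul_le_mul_of_nonneg_right (hwb.trans hwnR) (by positivity)
        rw [e4] at e5
        linarith
      have e2 : ((2 : ℝ) ^ (t * w₀)) ≤ 2 ^ (ε * n / 4) := by
        rw [← Real.rpow_natCast]
        apply Real.rpow_le_rpow_of_exponent_le (by norm_num)
        push_cast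
        exact htwn
      have e3 : (m : ℝ) ^ t * 2 ^ (t * w₀) ≤ 2 ^ ((1 - ε / 2) * n - 1) := by
        calc (m : ℝ) ^ t * 2 ^ (t * w₀) ≤ 2 ^ (ε * n / 8) * 2 ^ (ε * n / 4) :=
              mul_le_mul e1 e2 (by positivity) (by positivity)
          _ = 2 ^ (3 * (ε * n) / 8) := by
              rw [← Real.rpow_add (by norm_num)]; congr 1; ring
          _ ≤ 2 ^ ((1 - ε / 2) * n - 1) := by
              apply Real.rpow_le_rpow_of_exponent_le (by norm_num)
              have : ε * n ≤ n := by nlinarith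
              nlinarith
      have e4 : (K.size : ℝ) ≤ 2 ^ ((1 - ε / 2) * n - 1) := by
        refine hK2.trans ?_
        apply Real.rpow_le_rpow_of_exponent_le (by norm_num)
        nlinarith
      have e5 : (2 : ℝ) ^ ((1 - ε / 2) * n - 1) + 2 ^ ((1 - ε / 2) * n - 1) =
          2 ^ ((1 - ε / 2) * n) := by
        rw [Real.rpow_sub (by norm_num), Real.rpow_one]; ring
      linarith
    have hadv := hK K' (hd'.trans (by omega)) hsize
    simp only [he'] at hadv
    refine hadv.trans ?_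
    apply Real.rpow_le_rpow_of_exponent_le (by norm_num)
    apply neg_le_neg
    calc (w : ℝ) / ((a + b) * t) ≤ w / (a * t) :=
          div_le_div_of_nonneg_left (Nat.cast_nonneg w) (by positivity)
            (mul_le_mul_of_nonneg_right (by linarith) ht0.le)
      _ ≤ ε * w / (8 * t) / C₀ := by
          rw [ha, div_div, div_le_div_iff₀ (by positivity) (by positivity)]
          have : (0 : ℝ) ≤ w := Nat.cast_nonneg w
          have e : ε * w * (16 * C₀ / ε * t) = 16 * t * C₀ * w := by field_simp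
          rw [e]
          have e2 : 0 ≤ t * C₀ * w := by positivity
          linarith
      _ ≤ w₀ / C₀ := div_le_div_of_nonneg_right hw0low hC₀.le

open Classical in
/-- The average-case and the randomised bound, and the upper bound. -/
theorem main (ε : ℝ) (hε : 0 < ε) (hε1 : ε < 1) : ∃ C : ℝ, 0 < C ∧
    ∀ n d t w : ℕ, 2 ≤ n → 1 ≤ d → 1 ≤ t → C * (t * (d * Real.log n)) ≤ w → w ≤ n →
    ∃ M : ℕ, 0 < M ∧ M ≤ n ^ t ∧ ∃ sc : Fin M → Fin w → Fin n,
      (∃ ν₀ ν₁ : ((Fin M × (Fin w → Bool)) → Bool) → ℝ,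
        ((∀ x, 0 ≤ ν₀ x) ∧ ∑ x, ν₀ x = 1) ∧ ((∀ x, 0 ≤ ν₁ x) ∧ ∑ x, ν₁ x = 1) ∧
        (∀ x, ν₁ x ≠ 0 → Satisfiable sc x) ∧
        (∑ x, ν₀ x * (if AtMost ((3 / 4) ^ t) sc x then 0 else 1)) ≤
          (2 : ℝ) ^ (-((1 - ε) * n / 10)) ∧
        ∀ K : Circuit (Fin M × (Fin w → Bool)), K.depth ≤ d → (K.size : ℝ) ≤ 2 ^ ((1 - ε) * n) →
          |(∑ x, ν₀ x * (if K.eval x = true then 1 else 0)) -
            ∑ x, ν₁ x * (if K.eval x = true then 1 else 0)| ≤
              (2 : ℝ) ^ (-((w : ℝ) / (C * t)))) ∧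
      (∀ (R : RandCircuit (Fin M × (Fin w → Bool))) (S : ℕ), R.Bounded d S →
        (∀ x, Satisfiable sc x → R.Correct x True) →
        (∀ x, AtMost ((3 / 4) ^ t) sc x → R.Correct x False) → (2 : ℝ) ^ ((1 - ε) * n) < S) ∧
      (∃ K : Circuit (Fin M × (Fin w → Bool)), K.depth ≤ 2 ∧ K.size = 2 ^ n + 1 ∧
        ∀ x, K.eval x = true ↔ Satisfiable sc x) := by
  obtain ⟨C, hC, h⟩ := gap_t ε hε hε1
  obtain ⟨C', hCC', h'⟩ := small_pow ε hε1 C hC
  refine ⟨C', by linarith, ?_⟩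
  intro n d t w hn hd ht hw hwn
  have hnR : (2 : ℝ) ≤ n := by exact_mod_cast hn
  have htR : (1 : ℝ) ≤ t := by exact_mod_cast ht
  have ht0 : (0 : ℝ) < t := by linarith
  have hlogn : 0 ≤ Real.log n := Real.log_nonneg (by linarith)
  have hw1 : C * (t * (d * Real.log n)) ≤ w :=
    (mul_le_mul_of_nonneg_right hCC' (by positivity)).trans hw
  obtain ⟨M, hM0, hMn, sc, ν₀, ν₁, h0, h1, hs, hg, hK⟩ := h n d t w hn hd ht hw1 hwn
  refine ⟨M, hM0, hMn, sc, ⟨ν₀, ν₁, h0, h1, hs, hg, fun K hK1 hK2 => (hK K hK1 hK2).trans ?_⟩,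
    ?_, upper sc⟩
  · apply Real.rpow_le_rpow_of_exponent_le (by norm_num)
    apply neg_le_neg
    exact div_le_div_of_nonneg_left (Nat.cast_nonneg w) (by positivity)
      (mul_le_mul_of_nonneg_right hCC' ht0.le)
  · intro R S hR hyes hno
    refine rand_of_avg sc ν₀ ν₁ h0.1 h0.2 h1.1 h1.2 hs _ _ (AtMost ((3 / 4) ^ t) sc) ?_ d
      ((2 : ℝ) ^ ((1 - ε) * n)) hK (h' n d t w hn hd ht hw hwn) R S hR hyes hno
    refine le_trans (le_of_eq ?_) hg
    refine Finset.sum_congr rfl fun x _ => ?_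
    congr 1

end Pool.Agent.H72.Gap
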